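import Pool.Agent.H30.GMC.StT
import Pool.Agent.H58.FCB.LINE

/-!
Project GMC, module ASUM: sums of ample divisors are ample, and `D` is ample if a positive
multiple is.
-/

open AlgebraicGeometry CategoryTheory FCB MvPolynomial

namespace GMC

namespace ASUM

theorem sep (V : PVar) : V.X.IsSeparated := by
  have h1 : Scheme.IsSeparated (PS V.n) := inferInstanceAs (Scheme.IsSeparated (Proj (grd V.n)))
  have h2 : IsSeparated (V.emb ≫ Limits.terminal.from (PS V.n)) := inferInstance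
  rw [Limits.terminal.comp_from] at h2
  exact ⟨h2⟩

theorem lin_add {X : Scheme.{0}} [IsIntegral X] [IsLocallyNoetherian X] {D E D' E' : WeilDiv X}
    (h : LinEquiv D E) (h' : LinEquiv D' E') : LinEquiv (D + D') (E + E') := by
  obtain ⟨f, hf, h⟩ := h
  obtain ⟨g, hg, h'⟩ := h'
  refine ⟨f * g, mul_ne_zero hf hg, fun p => ?_⟩
  rw [Scheme.ord_mul hf hg, Finsupp.add_apply, Finsupp.add_apply, h, h']
  ring

end ASUM

theorem asum_thm : S_ASUM := by
  intro V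
  have hsep := ASUM.sep V
  refine ⟨fun D E hD hE x => ?_, fun D n hn hD x => ?_⟩
  · obtain ⟨n₁, E₁, U₁, hn₁, hl₁, he₁, ha₁, hx₁, hy₁⟩ := hD x
    obtain ⟨n₂, E₂, U₂, hn₂, hl₂, he₂, ha₂, hx₂, hy₂⟩ := hE x
    refine ⟨n₁ * n₂, n₂ • E₁ + n₁ • E₂, U₁ ⊓ U₂, Nat.mul_pos hn₁ hn₂, ?_, ?_, ha₁.inf ha₂,
      ⟨hx₁, hx₂⟩, fun y => ?_⟩
    · have h := ASUM.lin_add (LINE.smul _ _ hl₁ n₂) (LINE.smul _ _ hl₂ n₁)
      rw [smul_smul, smul_smul, mul_comm n₂ n₁, ← smul_add] at h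
      exact h
    · intro p
      have h1 : 0 ≤ E₁ p := he₁ p
      have h2 : 0 ≤ E₂ p := he₂ p
      change 0 ≤ (n₂ • E₁ + n₁ • E₂) p
      rw [Finsupp.add_apply, Finsupp.smul_apply, Finsupp.smul_apply, nsmul_eq_mul, nsmul_eq_mul]
      positivity
    · change (y ∈ U₁ ∧ y ∈ U₂) ↔ _
      rw [hy₁, hy₂, ← forall_and]
      refine forall_congr' fun p => ?_
      rw [← imp_and]
      refine imp_congr_right fun _ => ?_
      have h1 : 0 ≤ E₁ p := he₁ p
      have h2 : 0 ≤ E₂ p := he₂ p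
      have h3 : (0 : ℤ) < n₁ := by exact_mod_cast hn₁
      have h4 : (0 : ℤ) < n₂ := by exact_mod_cast hn₂
      rw [Finsupp.add_apply, Finsupp.smul_apply, Finsupp.smul_apply, nsmul_eq_mul, nsmul_eq_mul]
      constructor
      · rintro ⟨h5, h6⟩
        rw [h5, h6, mul_zero, mul_zero, add_zero]
      · intro h5
        have h6 : 0 ≤ (n₂ : ℤ) * E₁ p := by positivity
        have h7 : 0 ≤ (n₁ : ℤ) * E₂ p := by positivity
        have h8 : (n₂ : ℤ) * E₁ p = 0 := by omega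
        have h9 : (n₁ : ℤ) * E₂ p = 0 := by omega
        exact ⟨(mul_eq_zero.1 h8).resolve_left h4.ne', (mul_eq_zero.1 h9).resolve_left h3.ne'⟩
  · obtain ⟨n₁, E₁, U₁, hn₁, hl₁, he₁, ha₁, hx₁, hy₁⟩ := hD x
    refine ⟨n₁ * n, E₁, U₁, Nat.mul_pos hn₁ hn, ?_, he₁, ha₁, hx₁, hy₁⟩
    rw [mul_smul]
    exact hl₁

end GMC
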