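import Pool.Agent.H30.GMC.StT
import Pool.Agent.H58.FCB.LINE

/-!
Project GMC, module EQUN: two equations of a divisor differ by a unit; pull-backs of two
equations have the same order.
-/

open AlgebraicGeometry CategoryTheory FCB MvPolynomial

namespace GMC

namespace EQUN

theorem unit_of_reg {X : Scheme.{0}} [IsIntegral X] (x : X) (f : X.functionField) (hf : f ≠ 0)
    (h1 : RegAt x f) (h2 : RegAt x f⁻¹) : UnitAt x f := by
  obtain ⟨s, hs⟩ := h1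
  obtain ⟨t, ht⟩ := h2
  refine ⟨s, IsUnit.of_mul_eq_one t ?_, hs⟩
  apply IsFractionRing.injective (X.presheaf.stalk x) X.functionField
  rw [map_mul, hs, ht, mul_inv_cancel₀ hf, map_one]

theorem unit (h0 : S_HART) (X : Scheme.{0}) [IsIntegral X] [IsLocallyNoetherian X]
    (hN : IsNormal X) (D : WeilDiv X) (x : X) (h h' : X.functionField) (h1 : IsEq D x h)
    (h2 : IsEq D x h') : UnitAt x (h * h'⁻¹) := by
  obtain ⟨n1, h1⟩ := h1
  obtain ⟨n2, h2⟩ := h2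
  have hne : h * h'⁻¹ ≠ 0 := mul_ne_zero n1 (inv_ne_zero n2)
  have ho : ∀ p : PrimeDiv X, p.1 ⤳ x → Scheme.ord (h * h'⁻¹) p.1 = 0 := by
    intro p hp
    rw [Scheme.ord_mul n1 (inv_ne_zero n2), LINE.ord_inv _ _ n2, ← h1 p hp, ← h2 p hp]
    ring
  refine unit_of_reg x _ hne (h0 X hN x _ hne fun p hp => (ho p hp).ge)
    (h0 X hN x _ (inv_ne_zero hne) fun p hp => ?_)
  rw [LINE.ord_inv _ _ hne, ho p hp, neg_zero]

end EQUN

theorem equn_thm (h1 : S_HART) (h2 : S_ORDV) (h3 : S_PULA) : S_EQUN := by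
  refine ⟨fun X _ _ hN D x h h' => EQUN.unit h1 X hN D x h h', ?_⟩
  intro X Y _ _ _ _ g hN D p h h' b b' hp he he' hb hb' hb0 hb0'
  have hu := EQUN.unit h1 X hN D (g p.1) h h' he he'
  obtain ⟨q1, q2, _, _, _, q6, _⟩ := h3 X Y g
  obtain ⟨s, _, hs⟩ := id hu
  obtain ⟨c, hc, _, hcu⟩ := q6 p.1 (h * h'⁻¹) ⟨s, hs⟩
  have h4 : IsPull g (h * h'⁻¹ * h') (c * b') := (q2 _ _ _ _ hc hb').1
  have h5 : h * h'⁻¹ * h' = h := by rw [mul_assoc, inv_mul_cancel₀ he'.1, mul_one]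
  rw [h5] at h4
  have h6 : b = c * b' := q1 _ _ _ hb h4
  have hc0 : c ≠ 0 := by
    rintro rfl
    exact hb0 (by rw [h6, zero_mul])
  rw [h6, Scheme.ord_mul hc0 hb0', ((h2 Y p hp).2.1 c hc0).1 (hcu.2 hu), zero_add]

end GMC
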