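import Pool.Agent.H30.GMC.StT
import Pool.Agent.H58.FCB.LINE

/-!
Project GMC, module HYPA: divisors of homogeneous polynomials of positive degree are ample.
-/

open AlgebraicGeometry CategoryTheory FCB MvPolynomial

namespace GMC

theorem hypa_thm (h1 : S_PSB) (h2 : S_RATA) (h3 : S_RATB) (h4 : S_RLOC) (h5 : S_PVC)
    (h6 : S_ORDV) (h7 : S_KRUL) (h8 : S_FINS) : S_HYPA := by
  intro V hN d A D hd hA hAI hD y
  obtain ⟨hprime, _, hex, _, hsp, _⟩ := h1 V.n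
  obtain ⟨ha1, ha2, ha3⟩ := h2 V.X V.n V.emb
  obtain ⟨hb1, _, _⟩ := h3 V.X V.n V.emb
  have hspec : ∀ z w : V.X, z ⤳ w → V.P z ≤ V.P w := fun z w h =>
    (hsp _ _).1 (h.map V.emb.continuous)
  have hgen : ∀ z : V.X, V.P (genericPoint V.X) ≤ V.P z := fun z =>
    hspec _ _ (genericPoint_specializes z)
  have hpw : ∀ (z : V.X) (j : Fin (V.n + 1)),
      (MvPolynomial.X j : MvPolynomial (Fin (V.n + 1)) ℂ) ∉ V.P z →
      (MvPolynomial.X j : MvPolynomial (Fin (V.n + 1)) ℂ) ^ d ∉ V.P z := fun z j hj h =>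
    hj ((hprime (V.emb z)).mem_of_pow_mem d h)
  have hgr : ∀ j : Fin (V.n + 1),
      (MvPolynomial.X j : MvPolynomial (Fin (V.n + 1)) ℂ) ^ d ∈ grd V.n d := fun j => by
    have h := (isHomogeneous_X ℂ j).pow d
    rw [one_mul] at h
    exact h
  obtain ⟨i, hi⟩ := hex (V.emb y)
  obtain ⟨φ, hφ⟩ := ha1 d (MvPolynomial.X i ^ d) A (hgr i) hA hAI
  have hXi : (MvPolynomial.X i : MvPolynomial (Fin (V.n + 1)) ℂ) ^ d ∉
      PI (V.emb (genericPoint V.X)) := fun h => hpw y i hi (hgen y h)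
  have hφ0 : φ ≠ 0 := fun h => hXi ((ha3 _ _ _ hφ).1 h)
  have hcpt : CompactSpace V.X := (h5 V).1
  have hfin := h8 V.X φ hφ0
  have hE : ∀ (p : PrimeDiv V.X) (j : Fin (V.n + 1)),
      (MvPolynomial.X j : MvPolynomial (Fin (V.n + 1)) ℂ) ∉ V.P p.1 →
      ∀ ψ, IsRatio V.emb (MvPolynomial.X i ^ d) (MvPolynomial.X j ^ d) ψ →
      D p + Scheme.ord φ p.1 = Scheme.ord ψ p.1 := by
    intro p j hj ψ hψ
    have hB := hpw p.1 j hj
    obtain ⟨f, hf⟩ := ha1 d A (MvPolynomial.X j ^ d) hA (hgr j) (fun h => hB (hgen p.1 h))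
    have hf0 : f ≠ 0 := fun h => hAI ((ha3 _ _ _ hf).1 h)
    have hm := (hb1 _ _ _ _ _ _ hφ hf).1
    have he : φ * f = ψ := (ha2 _ _ _ _ _ _ hm hψ).2 (by
      have h0 : (MvPolynomial.X i ^ d * A * MvPolynomial.X j ^ d -
        MvPolynomial.X i ^ d * (A * MvPolynomial.X j ^ d) :
          MvPolynomial (Fin (V.n + 1)) ℂ) = 0 := by ring
      rw [h0]
      exact Ideal.zero_mem _)
    rw [hD p _ f hB hf, ← he, Scheme.ord_mul hφ0 hf0, add_comm]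
  -- the ratio `X_i ^ d / X_j ^ d`
  have hex2 : ∀ (z : V.X) (j : Fin (V.n + 1)),
      (MvPolynomial.X j : MvPolynomial (Fin (V.n + 1)) ℂ) ∉ V.P z →
      ∃ ψ, IsRatio V.emb (MvPolynomial.X i ^ d) (MvPolynomial.X j ^ d) ψ ∧ ψ ≠ 0 ∧ RegAt z ψ ∧
        (UnitAt z ψ ↔ (MvPolynomial.X i : MvPolynomial (Fin (V.n + 1)) ℂ) ^ d ∉ V.P z) := by
    intro z j hj
    have hB := hpw z j hj
    obtain ⟨ψ, hψ⟩ := ha1 d (MvPolynomial.X i ^ d) (MvPolynomial.X j ^ d) (hgr i) (hgr j)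
      (fun h => hB (hgen z h))
    have hl := h4 V.X V.n V.emb z _ _ ψ hψ hB
    exact ⟨ψ, hψ, fun h => hXi ((ha3 _ _ _ hψ).1 h), hl.1, hl.2⟩
  obtain ⟨_, _, hU⟩ := h5 V
  obtain ⟨U, haff, hUm⟩ := hU i
  let F : WeilDiv V.X := Finsupp.ofSupportFinite (fun p : PrimeDiv V.X => Scheme.ord φ p.1) hfin
  have hF : ∀ p, F p = Scheme.ord φ p.1 := fun p => rfl
  refine ⟨1, D + F, U, one_pos, ⟨φ, hφ0, fun p => ?_⟩, fun p => ?_, haff, (hUm y).2 hi,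
    fun z => ⟨fun hz p hp => ?_, fun hz => ?_⟩⟩
  · rw [one_smul, Finsupp.add_apply, hF]
  · obtain ⟨j, hj⟩ := hex (V.emb p.1)
    obtain ⟨ψ, hψ, hψ0, hr, _⟩ := hex2 p.1 j hj
    change 0 ≤ (D + F) p
    rw [Finsupp.add_apply, hF, hE p j hj ψ hψ]
    exact ((h6 V.X p (hN p.1)).1 ψ hψ0).1 hr
  · obtain ⟨j, hj⟩ := hex (V.emb p.1)
    obtain ⟨ψ, hψ, hψ0, _, hu⟩ := hex2 p.1 j hj
    rw [Finsupp.add_apply, hF, hE p j hj ψ hψ]
    refine ((h6 V.X p (hN p.1)).2.1 ψ hψ0).1 (hu.2 (hpw p.1 i fun h => ?_))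
    exact (hUm z).1 hz (hspec _ _ hp h)
  · rw [hUm]
    intro hzi
    obtain ⟨j, hj⟩ := hex (V.emb z)
    obtain ⟨ψ, hψ, hψ0, hr, hu⟩ := hex2 z j hj
    have hnu : ¬ UnitAt z ψ := fun h => hu.1 h (Ideal.pow_mem_of_mem _ hzi d hd)
    obtain ⟨p, hp, hpo⟩ := h7 V.X hN z ψ hψ0 hr hnu
    have h0 := hz p hp
    rw [Finsupp.add_apply, hF, hE p j (fun h => hj (hspec _ _ hp h)) ψ hψ] at h0
    omega

end GMC
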