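import Pool.Agent.H30.GMC.StT

/-!
Project GMC, module KRUL: a regular function which vanishes at `x` vanishes on a prime divisor
through `x`.
-/

open AlgebraicGeometry CategoryTheory FCB MvPolynomial

namespace GMC

namespace KRUL

theorem ord_inv {X : Scheme.{0}} [IsIntegral X] [IsLocallyNoetherian X] (f : X.functionField)
    (hf : f ≠ 0) (x : X) : Scheme.ord f⁻¹ x = -Scheme.ord f x := by
  have h1 : Scheme.ord (f * f⁻¹) x = Scheme.ord f x + Scheme.ord f⁻¹ x :=
    Scheme.ord_mul hf (inv_ne_zero hf)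
  rw [mul_inv_cancel₀ hf] at h1
  have h2 : Scheme.ord ((1 : X.functionField) * 1) x =
      Scheme.ord (1 : X.functionField) x + Scheme.ord (1 : X.functionField) x :=
    Scheme.ord_mul one_ne_zero one_ne_zero
  rw [mul_one] at h2
  omega

end KRUL

theorem krul_thm (h : S_HART) : S_KRUL := by
  intro X _ _ hN x f hf hr hu
  by_contra hc
  push Not at hc
  have h1 : RegAt x f⁻¹ := h X hN x f⁻¹ (inv_ne_zero hf) fun p hp => by
    rw [KRUL.ord_inv f hf]
    have := hc p hp
    omega
  obtain ⟨s, hs⟩ := hr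
  obtain ⟨t, ht⟩ := h1
  refine hu ⟨s, ?_, hs⟩
  refine IsUnit.of_mul_eq_one t ?_
  apply IsFractionRing.injective (X.presheaf.stalk x) X.functionField
  rw [map_mul, hs, ht, mul_inv_cancel₀ hf, map_one]

end GMC
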